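import Mathlib

set_option autoImplicit false
set_option backward.isDefEq.respectTransparency.types false

namespace Knot548

theorem emb_planes_key {n : ℕ} (f : Fin n → (Fin 3 → ℝ)) (hf : Function.Injective f)
    (h : ∀ i j k l, i ≠ j → k ≠ l → ¬ (i = k ∧ j = l) → ¬ (i = l ∧ j = k) →
      segment ℝ (f i) (f j) ∩ segment ℝ (f k) (f l) ⊆ {f i, f j} ∩ {f k, f l})
    (i j k l : Fin n) (hij : i ≠ j) (hkl : k ≠ l) (hik : i ≠ k) (hil : i ≠ l) (hjk : j ≠ k)
    (hjl : j ≠ l) (α β γ δ : ℝ) (hs : α + β + γ + δ = 0)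
    (hr : α • f i + β • f j + γ • f k + δ • f l = 0)
    (hα : 0 ≤ α) (hβ : 0 ≤ β) (hγ : γ ≤ 0) (hδ : δ ≤ 0) : α + β = 0 := by
  by_contra hne
  have hpos : 0 < α + β := lt_of_le_of_ne (by linarith) (Ne.symm hne)
  have hp1 : (α / (α + β)) • f i + (β / (α + β)) • f j ∈ segment ℝ (f i) (f j) := by
    refine ⟨α / (α + β), β / (α + β), by positivity, by positivity, ?_, rfl⟩
    field_simp
  have hp2 : (α / (α + β)) • f i + (β / (α + β)) • f j ∈ segment ℝ (f k) (f l) := by
    refine ⟨(-γ) / (α + β), (-δ) / (α + β), div_nonneg (by linarith) hpos.le,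
      div_nonneg (by linarith) hpos.le, ?_, ?_⟩
    · rw [← add_div, div_eq_one_iff_eq hne]; linarith
    · funext t
      have := congrFun hr t
      simp only [Pi.add_apply, Pi.smul_apply, smul_eq_mul, Pi.zero_apply] at this ⊢
      have e : (-γ) * f k t + (-δ) * f l t = α * f i t + β * f j t := by linarith
      calc (-γ) / (α + β) * f k t + (-δ) / (α + β) * f l t
          = ((-γ) * f k t + (-δ) * f l t) / (α + β) := by ring
        _ = (α * f i t + β * f j t) / (α + β) := by rw [e]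
        _ = α / (α + β) * f i t + β / (α + β) * f j t := by ring
  have hm := h i j k l hij hkl (fun hh => hik hh.1) (fun hh => hil hh.1) ⟨hp1, hp2⟩
  obtain ⟨h1, h2⟩ := hm
  rcases h1 with h1 | h1 <;> rcases h2 with h2 | h2
  · exact hik (hf (h1.symm.trans h2))
  · exact hil (hf (h1.symm.trans h2))
  · exact hjk (hf (h1.symm.trans h2))
  · exact hjl (hf (h1.symm.trans h2))

theorem emb_planes_zero {n : ℕ} (f : Fin n → (Fin 3 → ℝ)) (hf : Function.Injective f)
    (h : ∀ i j k l, i ≠ j → k ≠ l → ¬ (i = k ∧ j = l) → ¬ (i = l ∧ j = k) →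
      segment ℝ (f i) (f j) ∩ segment ℝ (f k) (f l) ⊆ {f i, f j} ∩ {f k, f l})
    (i j k l : Fin n) (hij : i ≠ j) (hkl : k ≠ l) (hik : i ≠ k) (hil : i ≠ l) (hjk : j ≠ k)
    (hjl : j ≠ l) (α β γ δ : ℝ) (hs : α + β + γ + δ = 0)
    (hr : α • f i + β • f j + γ • f k + δ • f l = 0)
    (hprod : 0 ≤ (α * β) * (γ * δ)) : α = 0 ∧ β = 0 ∧ γ = 0 ∧ δ = 0 := by
  have r2 : α • f i + γ • f k + β • f j + δ • f l = 0 := by rw [← hr]; abel
  have r3 : α • f i + δ • f l + β • f j + γ • f k = 0 := by rw [← hr]; abel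
  have r4 : β • f j + γ • f k + α • f i + δ • f l = 0 := by rw [← hr]; abel
  have r5 : β • f j + δ • f l + α • f i + γ • f k = 0 := by rw [← hr]; abel
  have r6 : γ • f k + δ • f l + α • f i + β • f j = 0 := by rw [← hr]; abel
  rcases mul_nonneg_iff.mp hprod with ⟨h1, h2⟩ | ⟨h1, h2⟩
  · rcases mul_nonneg_iff.mp h1 with ⟨a1, a2⟩ | ⟨a1, a2⟩ <;>
      rcases mul_nonneg_iff.mp h2 with ⟨a3, a4⟩ | ⟨a3, a4⟩
    · exact ⟨by linarith, by linarith, by linarith, by linarith⟩
    · have := emb_planes_key f hf h i j k l hij hkl hik hil hjk hjl α β γ δ hs hr a1 a2 a3 a4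
      exact ⟨by linarith, by linarith, by linarith, by linarith⟩
    · have := emb_planes_key f hf h k l i j hkl hij hik.symm hjk.symm hil.symm hjl.symm
        γ δ α β (by linarith) r6 a3 a4 a1 a2
      exact ⟨by linarith, by linarith, by linarith, by linarith⟩
    · exact ⟨by linarith, by linarith, by linarith, by linarith⟩
  · rcases mul_nonpos_iff.mp h1 with ⟨a1, a2⟩ | ⟨a1, a2⟩ <;>
      rcases mul_nonpos_iff.mp h2 with ⟨a3, a4⟩ | ⟨a3, a4⟩
    · have := emb_planes_key f hf h i k j l hik hjl hij hil hjk.symm hkl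
        α γ β δ (by linarith) r2 a1 a3 a2 a4
      exact ⟨by linarith, by linarith, by linarith, by linarith⟩
    · have := emb_planes_key f hf h i l j k hil hjk hij hik hjl.symm hkl.symm
        α δ β γ (by linarith) r3 a1 a4 a2 a3
      exact ⟨by linarith, by linarith, by linarith, by linarith⟩
    · have := emb_planes_key f hf h j k i l hjk hil hij.symm hjl hik.symm hkl
        β γ α δ (by linarith) r4 a2 a3 a1 a4
      exact ⟨by linarith, by linarith, by linarith, by linarith⟩
    · have := emb_planes_key f hf h j l i k hjl hik hij.symm hjk hil.symm hkl.symm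
        β δ α γ (by linarith) r5 a2 a4 a1 a3
      exact ⟨by linarith, by linarith, by linarith, by linarith⟩

/-- determinant of three vectors -/
def emb_planes_D (x y z : Fin 3 → ℝ) : ℝ :=
  x 0 * (y 1 * z 2 - y 2 * z 1) - x 1 * (y 0 * z 2 - y 2 * z 0) + x 2 * (y 0 * z 1 - y 1 * z 0)

theorem emb_planes_rel (x y z : Fin 3 → ℝ) (hD : emb_planes_D x y z = 0) :
    ∃ a b c : ℝ, ¬ (a = 0 ∧ b = 0 ∧ c = 0) ∧ a • x + b • y + c • z = 0 := by
  have hdet : (Matrix.of ![x, y, z]).det = 0 := by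
    rw [Matrix.det_fin_three]
    unfold emb_planes_D at hD
    simp only [Matrix.of_apply, Matrix.cons_val_zero, Matrix.cons_val_one, Matrix.cons_val]
    linarith
  obtain ⟨v, hv, hvM⟩ := Matrix.exists_vecMul_eq_zero_iff.mpr hdet
  refine ⟨v 0, v 1, v 2, ?_, ?_⟩
  · rintro ⟨h0, h1, h2⟩
    apply hv
    funext t
    fin_cases t
    · exact h0
    · exact h1
    · exact h2
  · funext t
    have := congrFun hvM t
    simp only [Matrix.vecMul, dotProduct, Fin.sum_univ_three, Matrix.of_apply,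
      Matrix.cons_val_zero, Matrix.cons_val_one, Matrix.cons_val, Pi.zero_apply] at this
    simp only [Pi.add_apply, Pi.smul_apply, smul_eq_mul, Pi.zero_apply]
    exact this

theorem emb_planes_neg {n : ℕ} (f : Fin n → (Fin 3 → ℝ)) (hf : Function.Injective f)
    (h : ∀ i j k l, i ≠ j → k ≠ l → ¬ (i = k ∧ j = l) → ¬ (i = l ∧ j = k) →
      segment ℝ (f i) (f j) ∩ segment ℝ (f k) (f l) ⊆ {f i, f j} ∩ {f k, f l})
    (g : (Fin 3 → ℝ) →ₗ[ℝ] ℝ) (p : Fin 3 → ℝ)
    (i j k l : Fin n) (hij : i ≠ j) (hkl : k ≠ l) (hik : i ≠ k) (hil : i ≠ l) (hjk : j ≠ k)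
    (hjl : j ≠ l) (gi : g (f i + p) = 1) (gj : g (f j + p) = 1) (gk : g (f k + p) = 1)
    (gl : g (f l + p) = 1) :
    (emb_planes_D (f j + p) (f k + p) (f l + p) * emb_planes_D (f i + p) (f k + p) (f l + p)) *
    (emb_planes_D (f i + p) (f j + p) (f l + p) * emb_planes_D (f i + p) (f j + p) (f k + p))
      < 0 := by
  by_contra hcon
  have hcon : 0 ≤ (emb_planes_D (f j + p) (f k + p) (f l + p) *
      emb_planes_D (f i + p) (f k + p) (f l + p)) *
      (emb_planes_D (f i + p) (f j + p) (f l + p) *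
      emb_planes_D (f i + p) (f j + p) (f k + p)) := not_lt.mp hcon
  -- general: a relation among the shifted points gives one among the points
  have gen : ∀ α β γ δ : ℝ,
      α • (f i + p) + β • (f j + p) + γ • (f k + p) + δ • (f l + p) = 0 →
      0 ≤ (α * β) * (γ * δ) → α = 0 ∧ β = 0 ∧ γ = 0 ∧ δ = 0 := by
    intro α β γ δ hr hp
    have hs : α + β + γ + δ = 0 := by
      have := congrArg g hr
      simp only [map_add, map_smul, smul_eq_mul, map_zero] at this gi gj gk gl
      rw [gi, gj, gk, gl] at this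
      linarith
    refine emb_planes_zero f hf h i j k l hij hkl hik hil hjk hjl α β γ δ hs ?_ hp
    have : α • f i + β • f j + γ • f k + δ • f l + (α + β + γ + δ) • p = 0 := by
      rw [← hr]; module
    rw [hs, zero_smul, add_zero] at this
    exact this
  have h4 := gen (emb_planes_D (f j + p) (f k + p) (f l + p))
    (-emb_planes_D (f i + p) (f k + p) (f l + p))
    (emb_planes_D (f i + p) (f j + p) (f l + p))
    (-emb_planes_D (f i + p) (f j + p) (f k + p)) (by
      generalize f i + p = a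
      generalize f j + p = b
      generalize f k + p = c
      generalize f l + p = d
      funext t
      simp only [Pi.add_apply, Pi.smul_apply, smul_eq_mul, Pi.zero_apply, emb_planes_D]
      fin_cases t
      · simp only [Fin.zero_eta, Fin.isValue]; ring
      · simp only [Fin.mk_one, Fin.isValue]; ring
      · simp only [Fin.reduceFinMk, Fin.isValue]; ring) (by nlinarith [hcon])
  have h5 : emb_planes_D (f i + p) (f j + p) (f k + p) = 0 := by linarith [h4.2.2.2]
  obtain ⟨a, b, c, hne, hrel⟩ := emb_planes_rel _ _ _ h5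
  have h6 := gen a b c 0 (by rw [zero_smul, add_zero]; exact hrel) (by simp)
  exact hne ⟨h6.1, h6.2.1, h6.2.2.1⟩

theorem emb_planes {n : ℕ} (f : Fin n → (Fin 3 → ℝ)) (hf : Function.Injective f)
    (h : ∀ i j k l, i ≠ j → k ≠ l → ¬ (i = k ∧ j = l) → ¬ (i = l ∧ j = k) →
      segment ℝ (f i) (f j) ∩ segment ℝ (f k) (f l) ⊆ {f i, f j} ∩ {f k, f l}) :
    ∀ (g : (Fin 3 → ℝ) →ₗ[ℝ] ℝ) (c : ℝ), g ≠ 0 →
      (Finset.univ.filter (fun i => g (f i) = c)).card ≤ 4 := by
  intro g c hg
  by_contra hcard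
  have hcard : 5 ≤ (Finset.univ.filter (fun i => g (f i) = c)).card := by omega
  obtain ⟨t, ht, htc⟩ := Finset.exists_subset_card_eq hcard
  obtain ⟨p0, hp0⟩ : ∃ p0, g p0 ≠ 0 := by
    by_contra hall
    apply hg
    ext x
    by_contra hx
    exact hall ⟨_, hx⟩
  set p : Fin 3 → ℝ := ((1 - c) / g p0) • p0 with hp
  have hgp : c + g p = 1 := by
    rw [hp, map_smul, smul_eq_mul, div_mul_cancel₀ _ hp0]; ring
  let v := t.orderEmbOfFin htc
  have hv : ∀ a, g (f (v a) + p) = 1 := by
    intro a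
    have : v a ∈ t := Finset.orderEmbOfFin_mem t htc a
    have := (Finset.mem_filter.mp (ht this)).2
    rw [map_add, this, hgp]
  have hd : ∀ a b : Fin 5, a ≠ b → v a ≠ v b := fun a b hab hh => hab (v.injective hh)
  have N : ∀ a b c d : Fin 5, a ≠ b → c ≠ d → a ≠ c → a ≠ d → b ≠ c → b ≠ d → _ :=
    fun a b c d h1 h2 h3 h4 h5 h6 => emb_planes_neg f hf h g p (v a) (v b) (v c) (v d)
      (hd _ _ h1) (hd _ _ h2) (hd _ _ h3) (hd _ _ h4) (hd _ _ h5) (hd _ _ h6)
      (hv a) (hv b) (hv c) (hv d)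
  have N0 := N 1 2 3 4 (by decide) (by decide) (by decide) (by decide) (by decide) (by decide)
  have N1 := N 0 2 3 4 (by decide) (by decide) (by decide) (by decide) (by decide) (by decide)
  have N2 := N 0 1 3 4 (by decide) (by decide) (by decide) (by decide) (by decide) (by decide)
  have N3 := N 0 1 2 4 (by decide) (by decide) (by decide) (by decide) (by decide) (by decide)
  have N4 := N 0 1 2 3 (by decide) (by decide) (by decide) (by decide) (by decide) (by decide)
  generalize emb_planes_D (f (v 0) + p) (f (v 1) + p) (f (v 2) + p) = d012 at *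
  generalize emb_planes_D (f (v 0) + p) (f (v 1) + p) (f (v 3) + p) = d013 at *
  generalize emb_planes_D (f (v 0) + p) (f (v 1) + p) (f (v 4) + p) = d014 at *
  generalize emb_planes_D (f (v 0) + p) (f (v 2) + p) (f (v 3) + p) = d023 at *
  generalize emb_planes_D (f (v 0) + p) (f (v 2) + p) (f (v 4) + p) = d024 at *
  generalize emb_planes_D (f (v 0) + p) (f (v 3) + p) (f (v 4) + p) = d034 at *
  generalize emb_planes_D (f (v 1) + p) (f (v 2) + p) (f (v 3) + p) = d123 at *
  generalize emb_planes_D (f (v 1) + p) (f (v 2) + p) (f (v 4) + p) = d124 at *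
  generalize emb_planes_D (f (v 1) + p) (f (v 3) + p) (f (v 4) + p) = d134 at *
  generalize emb_planes_D (f (v 2) + p) (f (v 3) + p) (f (v 4) + p) = d234 at *
  have m1 := mul_pos_of_neg_of_neg N0 N1
  have m2 := mul_pos_of_neg_of_neg N2 N3
  have m3 := mul_neg_of_pos_of_neg (mul_pos m1 m2) N4
  have m4 : 0 ≤ (d012 * d013 * d014 * d023 * d024 * d034 * d123 * d124 * d134 * d234) ^ 2 :=
    sq_nonneg _
  refine absurd m3 (not_lt.mpr ?_)
  refine le_of_le_of_eq m4 ?_
  ring

end Knot548
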