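import Mathlib

set_option autoImplicit false
set_option backward.isDefEq.respectTransparency.types false

namespace Knot548

theorem exists_half {n : ℕ} (u : Fin n → ℂ) (hu : ∀ i, ‖u i‖ = 1) :
    ∃ (ω : ℂ) (δ : ℝ), ‖ω‖ = 1 ∧ 0 < δ ∧ δ < 1 ∧
      ∀ i, (u i * (starRingEnd ℂ) ω).re < 1 - δ := by
  classical
  obtain ⟨c, hc, hcn⟩ := (Set.Icc_infinite (zero_lt_one (α := ℝ))).exists_notMem_finset
    (Finset.univ.image fun i => (u i).re)
  have hs : 0 ≤ 1 - c ^ 2 := by nlinarith [hc.1, hc.2]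
  have hsq : Real.sqrt (1 - c ^ 2) ^ 2 = 1 - c ^ 2 := Real.sq_sqrt hs
  have hlt : ∀ i, (u i).re * c + (u i).im * Real.sqrt (1 - c ^ 2) < 1 := by
    intro i
    have h1 : (u i).re ≠ c := by
      intro h
      exact hcn (Finset.mem_image.2 ⟨i, Finset.mem_univ _, h⟩)
    have h2 : 0 < ((u i).re - c) ^ 2 := by
      have := sub_ne_zero.2 h1
      positivity
    have h3 : (u i).re ^ 2 + (u i).im ^ 2 = 1 := by
      have h4 := Complex.sq_norm (u i)
      rw [hu i, Complex.normSq_apply] at h4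
      nlinarith
    nlinarith [sq_nonneg ((u i).im - Real.sqrt (1 - c ^ 2))]
  have hev : ∀ᶠ δ : ℝ in nhdsWithin 0 (Set.Ioi 0),
      ∀ i, (u i).re * c + (u i).im * Real.sqrt (1 - c ^ 2) < 1 - δ := by
    rw [Filter.eventually_all]
    intro i
    have h1 : Filter.Tendsto (fun δ : ℝ => 1 - δ) (nhdsWithin 0 (Set.Ioi 0)) (nhds (1 - 0)) :=
      ((continuous_const.sub continuous_id).tendsto 0).mono_left nhdsWithin_le_nhds
    rw [sub_zero] at h1
    exact h1.eventually (lt_mem_nhds (hlt i))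
  have hev2 : ∀ᶠ δ : ℝ in nhdsWithin 0 (Set.Ioi 0), δ < 1 :=
    nhdsWithin_le_nhds (gt_mem_nhds zero_lt_one)
  have hev3 : ∀ᶠ δ : ℝ in nhdsWithin 0 (Set.Ioi 0), 0 < δ := self_mem_nhdsWithin
  obtain ⟨δ, h1, h2, h3⟩ := (hev.and (hev2.and hev3)).exists
  refine ⟨⟨c, Real.sqrt (1 - c ^ 2)⟩, δ, ?_, h3, h2, fun i => ?_⟩
  · have h4 : ‖(⟨c, Real.sqrt (1 - c ^ 2)⟩ : ℂ)‖ ^ 2 = 1 := by
      rw [Complex.sq_norm, Complex.normSq_apply]
      change c * c + Real.sqrt (1 - c ^ 2) * Real.sqrt (1 - c ^ 2) = 1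
      nlinarith
    exact (pow_eq_one_iff_of_nonneg (norm_nonneg _) two_ne_zero).1 h4
  · have h5 := h1 i
    rw [Complex.mul_re, Complex.conj_re, Complex.conj_im]
    change (u i).re * c - (u i).im * (-Real.sqrt (1 - c ^ 2)) < 1 - δ
    linarith

end Knot548
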