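import Pool.Agent.Helper548.KnotB.Chi

/-! Data of a family of pages. -/

set_option autoImplicit false
set_option backward.isDefEq.respectTransparency.types false

namespace Knot548

theorem loops_data (O : ℂ) (W : List (ℝ × List (ℂ × ℝ))) (hW : Loops O W)
    (h1 : ∀ p ∈ W, p.2.length = 1) :
    2 ≤ W.length ∧ ∃ (h : Fin W.length → ℝ) (p : Fin W.length → ℂ × ℝ),
      Function.Injective h ∧ (∀ i, (p i).1 ≠ O) ∧
      (∀ i j, i ≠ j → ∀ s t : ℝ, 0 ≤ s → 0 ≤ t →
        s • ((p i).1 - O) = t • ((p j).1 - O) → s = 0) ∧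
      poly O W = alt (fun i => ((O, h i) : ℂ × ℝ)) p (List.ofFn fun i => (i, i)) := by
  refine ⟨hW.len.resolve_right (by rintro ⟨p, hp, h2⟩; have := h1 p hp; omega), ?_⟩
  have hone : ∀ i : Fin W.length, ∃ v, (W.get i).2 = [v] := fun i =>
    List.length_eq_one_iff.mp (h1 _ (List.get_mem W i))
  choose p hp using hone
  have hoff : ∀ i, (p i).1 ≠ O := fun i =>
    hW.off _ (List.get_mem W i) (p i) (by rw [hp i]; simp)
  refine ⟨fun i => (W.get i).1, p, ?_, hoff, ?_, ?_⟩
  · intro i j hij
    have hij' : (W.get i).1 = (W.get j).1 := hij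
    have := (hW.nod.getElem_inj_iff (i := i.1) (hi := by simp) (j := j.1) (hj := by simp)).mp
      (by simpa using hij')
    exact Fin.ext this
  · have himg : ∀ i : Fin W.length, ∀ r : ℝ, 0 ≤ r → r ≤ 1 →
        O + r • ((p i).1 - O) ∈ img O (W.get i).2 := by
      intro i r hr0 hr1
      rw [hp i]
      refine ⟨(O, (p i).1), by simp [cedges], ?_⟩
      refine ⟨1 - r, r, by linarith, hr0, by ring, ?_⟩
      simp only [smul_sub, sub_smul, one_smul]
      abel
    have hdisj : ∀ i j : Fin W.length, i ≠ j →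
        img O (W.get i).2 ∩ img O (W.get j).2 ⊆ {O} := by
      intro i j hij
      rcases lt_or_gt_of_ne hij with h | h
      · exact List.pairwise_iff_get.mp hW.disj i j h
      · rw [Set.inter_comm]
        exact List.pairwise_iff_get.mp hW.disj j i h
    intro i j hij s t hs ht hst
    by_contra hs0
    have hspos : 0 < s := lt_of_le_of_ne hs (Ne.symm hs0)
    have hM : 0 < max s t := lt_max_of_lt_left hspos
    have e1 : O + (s / max s t) • ((p i).1 - O) ∈ img O (W.get i).2 :=
      himg i _ (div_nonneg hs hM.le) ((div_le_one hM).mpr (le_max_left _ _))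
    have e2 : O + (t / max s t) • ((p j).1 - O) ∈ img O (W.get j).2 :=
      himg j _ (div_nonneg ht hM.le) ((div_le_one hM).mpr (le_max_right _ _))
    have e3 : O + (s / max s t) • ((p i).1 - O) = O + (t / max s t) • ((p j).1 - O) := by
      rw [div_eq_inv_mul, div_eq_inv_mul, mul_smul, mul_smul, hst]
    rw [← e3] at e2
    have e4 := hdisj i j hij ⟨e1, e2⟩
    rw [Set.mem_singleton_iff, add_eq_left, smul_eq_zero] at e4
    rcases e4 with h | h
    · exact (div_pos hspos hM).ne' h
    · exact hoff i (sub_eq_zero.mp h)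
  · unfold poly alt
    rw [List.flatMap_def, List.flatMap_def, List.map_ofFn]
    congr 1
    conv_lhs => rw [← List.ofFn_get W]
    rw [List.map_ofFn]
    congr 1
    funext i
    simp only [Function.comp]
    rw [hp i]

end Knot548
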