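import Mathlib

set_option autoImplicit false
set_option backward.isDefEq.respectTransparency.types false

namespace Knot548

theorem jd_line (f : ℝ → Matrix (Fin 3) (Fin 3) ℝ) (hf : Continuous f)
    (hd : ∀ t ∈ Set.Icc (0:ℝ) 1, 0 < (f t).det) (M N : Matrix (Fin 3) (Fin 3) ℝ)
    (h0 : f 0 = M) (h1 : f 1 = N) :
    JoinedIn {N : Matrix (Fin 3) (Fin 3) ℝ | 0 < N.det} M N := by
  refine JoinedIn.ofLine (f := f) hf.continuousOn h0 h1 ?_
  rintro _ ⟨t, ht, rfl⟩
  exact hd t ht

theorem jd_mul (A B : Matrix (Fin 3) (Fin 3) ℝ)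
    (hA : JoinedIn {N : Matrix (Fin 3) (Fin 3) ℝ | 0 < N.det} A 1)
    (hB : JoinedIn {N : Matrix (Fin 3) (Fin 3) ℝ | 0 < N.det} B 1) :
    JoinedIn {N : Matrix (Fin 3) (Fin 3) ℝ | 0 < N.det} (A * B) 1 := by
  obtain ⟨p, hp⟩ := hA
  obtain ⟨q, hq⟩ := hB
  refine ⟨⟨⟨fun t => p t * q t, by fun_prop⟩, by simp, by simp⟩, ?_⟩
  intro t
  have h1 : 0 < (p t).det := hp t
  have h2 : 0 < (q t).det := hq t
  change 0 < (p t * q t).det
  rw [Matrix.det_mul]
  positivity

theorem jd_pos (a b c : ℝ) (ha : 0 < a) (hb : 0 < b) (hc : 0 < c) :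
    JoinedIn {N : Matrix (Fin 3) (Fin 3) ℝ | 0 < N.det} (Matrix.diagonal ![a, b, c]) 1 := by
  refine jd_line (fun t => Matrix.diagonal ![(1 - t) * a + t, (1 - t) * b + t, (1 - t) * c + t])
    ?_ ?_ _ _ ?_ ?_
  · refine Continuous.matrix_diagonal ?_
    refine continuous_pi fun i => ?_
    fin_cases i <;> simp <;> fun_prop
  · intro t ht
    obtain ⟨h0, h1⟩ := ht
    rw [Matrix.det_diagonal, Fin.prod_univ_three]
    have key : ∀ x : ℝ, 0 < x → 0 < (1 - t) * x + t := by
      intro x hx
      rcases eq_or_lt_of_le h0 with h | h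
      · rw [← h]; simpa using hx
      · have : 0 ≤ (1 - t) * x := mul_nonneg (by linarith) hx.le
        linarith
    have := mul_pos (mul_pos (key a ha) (key b hb)) (key c hc)
    simpa using this
  · simp
  · ext i j
    fin_cases i <;> fin_cases j <;> simp [Matrix.diagonal]

theorem jd_r1 : JoinedIn {N : Matrix (Fin 3) (Fin 3) ℝ | 0 < N.det}
    (Matrix.diagonal ![-1, -1, 1]) 1 := by
  refine jd_line (fun t => !![Real.cos ((1 - t) * Real.pi), - Real.sin ((1 - t) * Real.pi), 0;
    Real.sin ((1 - t) * Real.pi), Real.cos ((1 - t) * Real.pi), 0; 0, 0, 1]) ?_ ?_ _ _ ?_ ?_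
  · refine continuous_matrix fun i j => ?_
    fin_cases i <;> fin_cases j <;> simp <;> fun_prop
  · intro t ht
    rw [Matrix.det_fin_three]
    simp
    nlinarith [Real.sin_sq_add_cos_sq ((1 - t) * Real.pi)]
  · ext i j
    fin_cases i <;> fin_cases j <;> simp [Matrix.diagonal]
  · ext i j
    fin_cases i <;> fin_cases j <;> simp [Matrix.diagonal]

theorem jd_r2 : JoinedIn {N : Matrix (Fin 3) (Fin 3) ℝ | 0 < N.det}
    (Matrix.diagonal ![-1, 1, -1]) 1 := by
  refine jd_line (fun t => !![Real.cos ((1 - t) * Real.pi), 0, - Real.sin ((1 - t) * Real.pi);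
    0, 1, 0; Real.sin ((1 - t) * Real.pi), 0, Real.cos ((1 - t) * Real.pi)]) ?_ ?_ _ _ ?_ ?_
  · refine continuous_matrix fun i j => ?_
    fin_cases i <;> fin_cases j <;> simp <;> fun_prop
  · intro t ht
    rw [Matrix.det_fin_three]
    simp
    nlinarith [Real.sin_sq_add_cos_sq ((1 - t) * Real.pi)]
  · ext i j
    fin_cases i <;> fin_cases j <;> simp [Matrix.diagonal]
  · ext i j
    fin_cases i <;> fin_cases j <;> simp [Matrix.diagonal]

theorem jd_r3 : JoinedIn {N : Matrix (Fin 3) (Fin 3) ℝ | 0 < N.det}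
    (Matrix.diagonal ![1, -1, -1]) 1 := by
  refine jd_line (fun t => !![1, 0, 0; 0, Real.cos ((1 - t) * Real.pi),
    - Real.sin ((1 - t) * Real.pi);
    0, Real.sin ((1 - t) * Real.pi), Real.cos ((1 - t) * Real.pi)]) ?_ ?_ _ _ ?_ ?_
  · refine continuous_matrix fun i j => ?_
    fin_cases i <;> fin_cases j <;> simp <;> fun_prop
  · intro t ht
    rw [Matrix.det_fin_three]
    simp
    nlinarith [Real.sin_sq_add_cos_sq ((1 - t) * Real.pi)]
  · ext i j
    fin_cases i <;> fin_cases j <;> simp [Matrix.diagonal]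
  · ext i j
    fin_cases i <;> fin_cases j <;> simp [Matrix.diagonal]

/-- matrices of positive determinant form a path connected set -/
theorem joined_det (M : Matrix (Fin 3) (Fin 3) ℝ) (h : 0 < M.det) :
    JoinedIn {N : Matrix (Fin 3) (Fin 3) ℝ | 0 < N.det} M 1 := by
  refine Matrix.diagonal_transvection_induction
    (fun N => JoinedIn {N : Matrix (Fin 3) (Fin 3) ℝ | 0 < N.det} N 1) M ?_ ?_ ?_
  · intro D hD
    have hpos : 0 < D 0 * D 1 * D 2 := by
      rw [Matrix.det_diagonal, Fin.prod_univ_three] at hD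
      rw [hD]; exact h
    have hDD : Matrix.diagonal D = Matrix.diagonal ![D 0, D 1, D 2] := by
      congr 1
      ext i
      fin_cases i <;> rfl
    rw [hDD]
    have h0 : D 0 ≠ 0 := by rintro h; simp [h] at hpos
    have h1 : D 1 ≠ 0 := by rintro h; simp [h] at hpos
    have h2 : D 2 ≠ 0 := by rintro h; simp [h] at hpos
    rcases lt_or_gt_of_ne h0 with h0 | h0 <;> rcases lt_or_gt_of_ne h1 with h1 | h1 <;>
      rcases lt_or_gt_of_ne h2 with h2 | h2
    · exfalso
      have := mul_neg_of_pos_of_neg (mul_pos_of_neg_of_neg h0 h1) h2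
      linarith
    · have e : Matrix.diagonal ![D 0, D 1, D 2] =
        Matrix.diagonal ![-D 0, -D 1, D 2] * Matrix.diagonal ![-1, -1, 1] := by
        rw [Matrix.diagonal_mul_diagonal]
        congr 1; ext i; fin_cases i <;> simp
      rw [e]
      exact jd_mul _ _ (jd_pos _ _ _ (by linarith) (by linarith) h2) jd_r1
    · have e : Matrix.diagonal ![D 0, D 1, D 2] =
        Matrix.diagonal ![-D 0, D 1, -D 2] * Matrix.diagonal ![-1, 1, -1] := by
        rw [Matrix.diagonal_mul_diagonal]
        congr 1; ext i; fin_cases i <;> simp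
      rw [e]
      exact jd_mul _ _ (jd_pos _ _ _ (by linarith) h1 (by linarith)) jd_r2
    · exfalso
      have := mul_neg_of_neg_of_pos (mul_neg_of_neg_of_pos h0 h1) h2
      linarith
    · have e : Matrix.diagonal ![D 0, D 1, D 2] =
        Matrix.diagonal ![D 0, -D 1, -D 2] * Matrix.diagonal ![1, -1, -1] := by
        rw [Matrix.diagonal_mul_diagonal]
        congr 1; ext i; fin_cases i <;> simp
      rw [e]
      exact jd_mul _ _ (jd_pos _ _ _ h0 (by linarith) (by linarith)) jd_r3
    · exfalso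
      have := mul_neg_of_neg_of_pos (mul_neg_of_pos_of_neg h0 h1) h2
      linarith
    · exfalso
      have := mul_neg_of_pos_of_neg (mul_pos h0 h1) h2
      linarith
    · exact jd_pos _ _ _ h0 h1 h2
  · intro t
    refine jd_line (fun s => Matrix.transvection t.i t.j ((1 - s) * t.c)) ?_ ?_ _ _ ?_ ?_
    · unfold Matrix.transvection
      refine continuous_const.add ?_
      refine continuous_matrix fun i j => ?_
      simp only [Matrix.single_apply]
      split_ifs <;> fun_prop
    · intro s hs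
      rw [Matrix.det_transvection_of_ne _ _ t.hij]
      norm_num
    · simp [Matrix.TransvectionStruct.toMatrix]
    · simp
  · intro A B hA hB
    exact jd_mul A B hA hB

end Knot548
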