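import Pool.Agent.Helper548.Knot.Defs

/-! Spoke polygons are simple. -/

set_option autoImplicit false
set_option backward.isDefEq.respectTransparency.types false

namespace Knot548

/-- spoke polygon: centre `x`, pages `(height on the axis, (tip, height of the tip))` -/
def spoke (x : ℂ) (W : List (ℝ × (ℂ × ℝ))) : List (ℂ × ℝ) :=
  W.flatMap (fun p => [((x, p.1) : ℂ × ℝ), p.2])

theorem spk_get (x : ℂ) (W : List (ℝ × (ℂ × ℝ))) (k : ℕ) :
    (spoke x W)[k]? = (W[k / 2]?).map
      (fun p => if k % 2 = 0 then ((x, p.1) : ℂ × ℝ) else p.2) := by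
  induction W generalizing k with
  | nil => simp [spoke]
  | cons p W ih =>
    have hc : spoke x (p :: W) = ((x, p.1) : ℂ × ℝ) :: p.2 :: spoke x W := by
      simp [spoke]
    rw [hc]
    match k with
    | 0 => simp
    | 1 => simp
    | k + 2 =>
      have h1 : (k + 2) / 2 = k / 2 + 1 := by omega
      have h2 : (k + 2) % 2 = k % 2 := by omega
      rw [List.getElem?_cons_succ, List.getElem?_cons_succ, ih, h1, h2, List.getElem?_cons_succ]

theorem spk_len (x : ℂ) (W : List (ℝ × (ℂ × ℝ))) : (spoke x W).length = 2 * W.length := by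
  induction W with
  | nil => simp [spoke]
  | cons p W ih =>
    have hc : spoke x (p :: W) = ((x, p.1) : ℂ × ℝ) :: p.2 :: spoke x W := by
      simp [spoke]
    rw [hc, List.length_cons, List.length_cons, ih, List.length_cons]
    ring

theorem spk_cedges_len {α : Type*} (L : List α) : (cedges L).length = L.length := by
  simp [cedges]

theorem spk_cedges_get {α : Type*} (L : List α) (k : ℕ) (hk : k < (cedges L).length) :
    (cedges L)[k] = (L[k]'(by rw [spk_cedges_len] at hk; exact hk),
      L[(k + 1) % L.length]'(Nat.mod_lt _ (by rw [spk_cedges_len] at hk; omega))) := by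
  unfold cedges
  rw [List.getElem_zip]
  congr 1
  rw [List.getElem_rotate]

/-- the vertices -/
def spkP (x : ℂ) (W : List (ℝ × (ℂ × ℝ))) (k : ℕ) : ℂ × ℝ :=
  if k % 2 = 0 then ((x, (W.getD (k / 2) (0, (0, 0))).1) : ℂ × ℝ)
  else (W.getD (k / 2) (0, (0, 0))).2

theorem spk_getElem (x : ℂ) (W : List (ℝ × (ℂ × ℝ))) (k : ℕ) (hk : k < (spoke x W).length) :
    (spoke x W)[k] = spkP x W k := by
  have h1 := spk_get x W k
  have h2 : k / 2 < W.length := by rw [spk_len] at hk; omega
  rw [List.getElem?_eq_getElem hk, List.getElem?_eq_getElem h2] at h1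
  simp only [Option.map_some, Option.some.injEq] at h1
  rw [h1]
  unfold spkP
  rw [List.getD_eq_getElem _ _ h2]

theorem spk_edge (x : ℂ) (W : List (ℝ × (ℂ × ℝ))) (k : ℕ) (hk : k < (cedges (spoke x W)).length) :
    (cedges (spoke x W))[k] = (spkP x W k, spkP x W ((k + 1) % (2 * W.length))) := by
  rw [spk_cedges_get, spk_getElem, spk_getElem, spk_len]

theorem spk_param (x : ℂ) (W : List (ℝ × (ℂ × ℝ))) (k : ℕ) (hk : k < 2 * W.length) (y : ℂ × ℝ)
    (hy : y ∈ hseg (spkP x W k) (spkP x W ((k + 1) % (2 * W.length)))) :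
    ∃ s : ℝ, 0 ≤ s ∧ s ≤ 1 ∧ (k % 2 = 0 → s < 1) ∧ (k % 2 = 1 → 0 < s) ∧
      y.1 = x + s • ((W.getD (k / 2) (0, (0, 0))).2.1 - x) ∧
      y.2 = (1 - s) * (if k % 2 = 0 then (W.getD (k / 2) (0, (0, 0))).1
        else (W.getD ((k / 2 + 1) % W.length) (0, (0, 0))).1) +
        s * (W.getD (k / 2) (0, (0, 0))).2.2 := by
  obtain ⟨s, h0, h1, rfl⟩ := hy
  rcases Nat.mod_two_eq_zero_or_one k with hk2 | hk2
  · refine ⟨s, h0, h1.le, fun _ => h1, fun h => by omega, ?_, ?_⟩
    all_goals
      have e1 : (k + 1) % (2 * W.length) = k + 1 := Nat.mod_eq_of_lt (by omega)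
      have e2 : (k + 1) % 2 = 1 := by omega
      have e3 : (k + 1) / 2 = k / 2 := by omega
      rw [e1]
      unfold spkP
      rw [hk2, e2, e3]
      simp
    ring
  · refine ⟨1 - s, by linarith, by linarith, fun h => by omega, fun _ => by linarith, ?_, ?_⟩
    all_goals
      have e2 : ((k + 1) % (2 * W.length)) % 2 = 0 := by
        rw [Nat.mod_mul_right_mod]; omega
      have e3 : ((k + 1) % (2 * W.length)) / 2 = (k / 2 + 1) % W.length := by
        have e4 : k + 1 = 2 * (k / 2 + 1) := by omega
        rw [e4, Nat.mul_mod_mul_left]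
        omega
      unfold spkP
      rw [hk2, e2, e3]
      simp
    all_goals ring

theorem simple_spoke (x : ℂ) (W : List (ℝ × (ℂ × ℝ))) (hl : 2 ≤ W.length)
    (hn : (W.map Prod.fst).Nodup) (hx : ∀ p ∈ W, p.2.1 ≠ x)
    (hd : W.Pairwise (fun p q => ∀ s t : ℝ, 0 ≤ s → 0 ≤ t →
      s • (p.2.1 - x) = t • (q.2.1 - x) → s = 0)) : Simple (spoke x W) := by
  set w : ℕ → ℝ × (ℂ × ℝ) := fun r => W.getD r (0, (0, 0)) with hw
  have hwm : ∀ r, r < W.length → (w r).2.1 ≠ x := by
    intro r hr
    apply hx
    simp only [hw]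
    rw [List.getD_eq_getElem _ _ hr]
    exact List.getElem_mem hr
  have hwn : ∀ r q, r < W.length → q < W.length → (w r).1 = (w q).1 → r = q := by
    intro r q hr hq h
    simp only [hw] at h
    rw [List.getD_eq_getElem _ _ hr, List.getD_eq_getElem _ _ hq] at h
    have h1 : r < (W.map Prod.fst).length := by simpa using hr
    have h2 : q < (W.map Prod.fst).length := by simpa using hq
    have h3 : (W.map Prod.fst)[r] = (W.map Prod.fst)[q] := by
      simpa using h
    exact (List.Nodup.getElem_inj_iff hn).mp h3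
  have hwd : ∀ r q, r < W.length → q < W.length → r < q → ∀ s t : ℝ, 0 ≤ s → 0 ≤ t →
      s • ((w r).2.1 - x) = t • ((w q).2.1 - x) → s = 0 := by
    intro r q hr hq hrq s t hs ht h
    simp only [hw] at h
    rw [List.getD_eq_getElem _ _ hr, List.getD_eq_getElem _ _ hq] at h
    exact List.pairwise_iff_getElem.mp hd r q hr hq hrq s t hs ht h
  have hlen : (cedges (spoke x W)).length = 2 * W.length := by rw [spk_cedges_len, spk_len]
  constructor
  · intro e he
    obtain ⟨k, hk, rfl⟩ := List.mem_iff_getElem.mp he
    rw [spk_edge]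
    have hk' : k < 2 * W.length := by rw [← hlen]; exact hk
    simp only
    rcases Nat.mod_two_eq_zero_or_one k with hk2 | hk2
    · have e1 : (k + 1) % (2 * W.length) = k + 1 := Nat.mod_eq_of_lt (by omega)
      have e2 : (k + 1) % 2 = 1 := by omega
      have e3 : (k + 1) / 2 = k / 2 := by omega
      rw [e1]
      unfold spkP
      rw [hk2, e2, e3]
      intro h
      apply hwm (k / 2) (by omega)
      have := congrArg Prod.fst h
      simpa [hw] using this.symm
    · have e2 : ((k + 1) % (2 * W.length)) % 2 = 0 := by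
        rw [Nat.mod_mul_right_mod]; omega
      unfold spkP
      rw [hk2, e2]
      intro h
      apply hwm (k / 2) (by omega)
      have := congrArg Prod.fst h
      simpa [hw] using this
  · rw [List.pairwise_iff_getElem]
    intro i j hi hj hij
    rw [spk_edge, spk_edge]
    have hi' : i < 2 * W.length := by rw [← hlen]; exact hi
    have hj' : j < 2 * W.length := by rw [← hlen]; exact hj
    rw [Set.disjoint_left]
    intro y hy1 hy2
    obtain ⟨s, s0, s1, s2, s3, s4, s5⟩ := spk_param x W i hi' y hy1
    obtain ⟨t, t0, t1, t2, t3, t4, t5⟩ := spk_param x W j hj' y hy2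
    have hpl : s • ((w (i / 2)).2.1 - x) = t • ((w (j / 2)).2.1 - x) := by
      have := s4.symm.trans t4
      exact add_left_cancel this
    rcases (Nat.div_le_div_right (c := 2) hij.le).lt_or_eq with hlt | heq
    · have hs : s = 0 := hwd _ _ (by omega) (by omega) hlt s t s0 t0 hpl
      have ht : t = 0 := by
        rw [hs, zero_smul] at hpl
        rcases smul_eq_zero.mp hpl.symm with h | h
        · exact h
        · exact absurd (sub_eq_zero.mp h) (hwm _ (by omega))
      have hi2 : i % 2 = 0 := by
        rcases Nat.mod_two_eq_zero_or_one i with h | h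
        · exact h
        · exact absurd hs (s3 h).ne'
      have hj2 : j % 2 = 0 := by
        rcases Nat.mod_two_eq_zero_or_one j with h | h
        · exact h
        · exact absurd ht (t3 h).ne'
      rw [hs, if_pos hi2] at s5
      rw [ht, if_pos hj2] at t5
      have h1 : (w (i / 2)).1 = (w (j / 2)).1 := by
        have := s5.symm.trans t5
        simpa [hw] using this
      have := hwn _ _ (by omega) (by omega) h1
      omega
    · have hi2 : i % 2 = 0 := by omega
      have hj2 : j % 2 = 1 := by omega
      rw [← heq] at hpl t5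
      have hst : s = t := by
        have h1 : (s - t) • ((w (i / 2)).2.1 - x) = 0 := by
          rw [sub_smul, hpl, sub_self]
        rcases smul_eq_zero.mp h1 with h | h
        · linarith
        · exact absurd (sub_eq_zero.mp h) (hwm _ (by omega))
      rw [if_pos hi2] at s5
      rw [if_neg (by omega), ← hst] at t5
      have h1 : (1 - s) * ((w (i / 2)).1 - (w ((i / 2 + 1) % W.length)).1) = 0 := by
        have := s5.symm.trans t5
        simp only [hw]
        linarith
      have h2 := s2 hi2
      rcases mul_eq_zero.mp h1 with h | h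
      · linarith
      · have h3 := hwn _ _ (by omega) (Nat.mod_lt _ (by omega)) (sub_eq_zero.mp h)
        have h4 : i / 2 < W.length := by omega
        rcases Nat.lt_or_ge (i / 2 + 1) W.length with h5 | h5
        · rw [Nat.mod_eq_of_lt h5] at h3
          omega
        · have h6 : i / 2 + 1 = W.length := by omega
          rw [h6, Nat.mod_self] at h3
          omega

end Knot548
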