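import Pool.Agent.Helper548.Knot.Defs

/-! Configurations and their chirality. -/

set_option autoImplicit false

namespace Knot548

def chi (a a' b b' : Fin 3 → ℝ) : ℝ := Matrix.det (Matrix.of ![a' - a, b - a, b' - a])

def Conf {m : ℕ} (a b : Fin m → (Fin 3 → ℝ)) : Prop :=
  ∀ i j k l, i < j → k < l → 0 < chi (a i) (a j) (b k) (b l)

def alt {E : Type*} {m : ℕ} (a b : Fin m → E) (π : List (Fin m × Fin m)) : List E :=
  π.flatMap (fun p => [a p.1, b p.2])

theorem chi_eq (a a' b b' : Fin 3 → ℝ) : chi a a' b b' =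
    (a' 0 - a 0) * (b 1 - a 1) * (b' 2 - a 2) - (a' 0 - a 0) * (b 2 - a 2) * (b' 1 - a 1)
    - (a' 1 - a 1) * (b 0 - a 0) * (b' 2 - a 2) + (a' 1 - a 1) * (b 2 - a 2) * (b' 0 - a 0)
    + (a' 2 - a 2) * (b 0 - a 0) * (b' 1 - a 1) - (a' 2 - a 2) * (b 1 - a 1) * (b' 0 - a 0) := by
  unfold chi
  rw [Matrix.det_fin_three]
  simp [Matrix.of_apply]

theorem chi_swap (a a' b b' : Fin 3 → ℝ) : chi a' a b b' = - chi a a' b b' := by
  rw [chi_eq, chi_eq]; ring

theorem chi_comm (a a' b b' : Fin 3 → ℝ) : chi b b' a a' = chi a a' b b' := by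
  rw [chi_eq, chi_eq]; ring

theorem chi_self (a b b' : Fin 3 → ℝ) : chi a a b b' = 0 := by
  rw [chi_eq]; ring

theorem chi_aff1 (t : ℝ) (x y a' b b' : Fin 3 → ℝ) :
    chi ((1 - t) • x + t • y) a' b b' = (1 - t) * chi x a' b b' + t * chi y a' b b' := by
  rw [chi_eq, chi_eq, chi_eq]
  simp only [Pi.add_apply, Pi.smul_apply, smul_eq_mul]
  ring

theorem chi_aff2 (t : ℝ) (x y a b b' : Fin 3 → ℝ) :
    chi a ((1 - t) • x + t • y) b b' = (1 - t) * chi a x b b' + t * chi a y b b' := by
  rw [chi_eq, chi_eq, chi_eq]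
  simp only [Pi.add_apply, Pi.smul_apply, smul_eq_mul]
  ring

theorem chi_lines (s s' t t' : ℝ) (p q r w : Fin 3 → ℝ) :
    chi ((1 - s) • p + s • q) ((1 - s') • p + s' • q) ((1 - t) • r + t • w)
      ((1 - t') • r + t' • w) = (s' - s) * (t' - t) * chi p q r w := by
  simp only [chi_eq, Pi.add_apply, Pi.smul_apply, smul_eq_mul]
  ring

theorem chi_lineA (s s' : ℝ) (p q b b' : Fin 3 → ℝ) :
    chi ((1 - s) • p + s • q) ((1 - s') • p + s' • q) b b' = (s' - s) * chi p q b b' := by
  simp only [chi_eq, Pi.add_apply, Pi.smul_apply, smul_eq_mul]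
  ring

theorem chi_trans (a a' b b' v : Fin 3 → ℝ) :
    chi (a + v) (a' + v) (b + v) (b' + v) = chi a a' b b' := by
  simp only [chi_eq, Pi.add_apply]
  ring

theorem conf_comm {m : ℕ} {a b : Fin m → (Fin 3 → ℝ)} (h : Conf a b) : Conf b a := by
  intro i j k l hij hkl
  rw [chi_comm]
  exact h k l i j hkl hij

/-- the configuration space -/
def SS (m : ℕ) : Set ((Fin m → (Fin 3 → ℝ)) × (Fin m → (Fin 3 → ℝ))) := {p | Conf p.1 p.2}

theorem joined_of_fun {X : Type*} [TopologicalSpace X] {S : Set X} (f : ℝ → X)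
    (hf : Continuous f) (h : ∀ t ∈ Set.Icc (0 : ℝ) 1, f t ∈ S) : JoinedIn S (f 0) (f 1) := by
  refine ⟨{ toFun := fun t => f t, continuous_toFun := hf.comp continuous_subtype_val,
            source' := by simp, target' := by simp }, ?_⟩
  intro t
  exact h t t.2

theorem joined_map {X Y : Type*} [TopologicalSpace X] [TopologicalSpace Y] {S : Set X}
    {T : Set Y} (g : X → Y) (hg : Continuous g) (hST : ∀ x ∈ S, g x ∈ T) {x y : X}
    (h : JoinedIn S x y) : JoinedIn T (g x) (g y) := by
  obtain ⟨γ, hγ⟩ := h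
  exact ⟨γ.map hg, fun t => hST _ (hγ t)⟩

theorem joined_swap {m : ℕ} {a b a' b' : Fin m → (Fin 3 → ℝ)}
    (h : JoinedIn (SS m) (a, b) (a', b')) : JoinedIn (SS m) (b, a) (b', a') :=
  joined_map (fun p => (p.2, p.1)) (by fun_prop) (fun p hp => conf_comm hp) h

/-- moving one vertex -/
theorem joined_update {m : ℕ} (a a' b : Fin m → (Fin 3 → ℝ)) (k : Fin m)
    (h : Conf a b) (h' : Conf a' b) (hk : ∀ i, i ≠ k → a' i = a i) :
    JoinedIn (SS m) (a, b) (a', b) := by
  have h1 := joined_of_fun (S := SS m)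
    (fun t : ℝ => ((fun i => (1 - t) • a i + t • a' i), b)) (by fun_prop) ?_
  · have e0 : (fun i => (1 - (0 : ℝ)) • a i + (0 : ℝ) • a' i) = a := by
      funext i; simp
    have e1 : (fun i => (1 - (1 : ℝ)) • a i + (1 : ℝ) • a' i) = a' := by
      funext i; simp
    simp only [e0, e1] at h1
    exact h1
  · intro t ht
    intro i j p q hij hpq
    show 0 < chi ((1 - t) • a i + t • a' i) ((1 - t) • a j + t • a' j) (b p) (b q)
    have h0 := h i j p q hij hpq
    have h1 := h' i j p q hij hpq
    have key : ∀ u v : ℝ, 0 < u → 0 < v → 0 < (1 - t) * u + t * v := by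
      intro u v hu hv
      rcases eq_or_lt_of_le ht.1 with h2 | h2
      · rw [← h2]; simpa using hu
      · have h3 : 0 ≤ (1 - t) * u := mul_nonneg (by linarith [ht.2]) hu.le
        have h4 : 0 < t * v := mul_pos h2 hv
        linarith
    by_cases hi : i = k
    · have hj : j ≠ k := by
        rintro rfl
        exact absurd hij (by rw [hi]; exact lt_irrefl _)
      have ej : (1 - t) • a j + t • a' j = a j := by
        rw [hk j hj]
        module
      rw [ej, chi_aff1]
      have : chi (a' i) (a j) (b p) (b q) = chi (a' i) (a' j) (b p) (b q) := by rw [hk j hj]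
      rw [this]
      exact key _ _ h0 h1
    · have ei : (1 - t) • a i + t • a' i = a i := by
        rw [hk i hi]
        module
      rw [ei, chi_aff2]
      have : chi (a i) (a' j) (b p) (b q) = chi (a' i) (a' j) (b p) (b q) := by rw [hk i hi]
      rw [this]
      exact key _ _ h0 h1

/-- points on a line -/
def lin {m : ℕ} (E : Fin m → ℝ) (p q : Fin 3 → ℝ) : Fin m → (Fin 3 → ℝ) :=
  fun i => (1 - E i) • p + E i • q

/-- first step: make the `a` collinear -/
theorem joined_line {m : ℕ} (a b : Fin (m + 2) → (Fin 3 → ℝ)) (h : Conf a b) :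
    ∃ (E : Fin (m + 2) → ℝ) (p q : Fin 3 → ℝ), StrictMono E ∧
      JoinedIn (SS (m + 2)) (a, b) (lin E p q, b) := by
  classical
  set p := a 0 with hp
  set q := a (Fin.last (m + 1)) with hq
  -- small parameter
  have hev : ∀ᶠ ε in nhds (0 : ℝ), ∀ (j : Fin (m + 2)) (k l : Fin (m + 2)), 0 < j → k < l →
      0 < (1 - ε) * chi p (a j) (b k) (b l) + ε * chi q (a j) (b k) (b l) := by
    rw [Filter.eventually_all]
    intro j
    rw [Filter.eventually_all]
    intro k
    rw [Filter.eventually_all]
    intro l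
    by_cases hj : 0 < j
    · by_cases hkl : k < l
      · have hc : Continuous (fun ε : ℝ => (1 - ε) * chi p (a j) (b k) (b l) +
            ε * chi q (a j) (b k) (b l)) := by fun_prop
        have h0 : 0 < (fun ε : ℝ => (1 - ε) * chi p (a j) (b k) (b l) +
            ε * chi q (a j) (b k) (b l)) 0 := by
          simp only [sub_zero, one_mul, zero_mul, add_zero]
          exact h 0 j k l hj hkl
        filter_upwards [hc.continuousAt.eventually (lt_mem_nhds h0)] with ε hε _ _
        exact hε
      · exact Filter.Eventually.of_forall (fun ε _ h => absurd h hkl)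
    · exact Filter.Eventually.of_forall (fun ε h => absurd h hj)
  rw [Metric.eventually_nhds_iff] at hev
  obtain ⟨δ, hδ, hev⟩ := hev
  set d := min (δ / 2) (1 / 2) with hd
  have hd0 : 0 < d := by positivity
  have hd1 : d < δ := lt_of_le_of_lt (min_le_left _ _) (by linarith)
  have hd2 : d < 1 := lt_of_le_of_lt (min_le_right _ _) (by norm_num)
  set E : Fin (m + 2) → ℝ := fun i => if i = Fin.last (m + 1) then 1 else d * ((i : ℕ) / (m + 2 : ℕ))
    with hE
  have hElt : ∀ i : Fin (m + 2), i ≠ Fin.last (m + 1) → 0 ≤ E i ∧ E i < d := by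
    intro i hi
    have e : E i = d * ((i : ℕ) / (m + 2 : ℕ)) := by simp only [hE, hi, if_false]
    rw [e]
    have h1 : ((i : ℕ) : ℝ) / ((m + 2 : ℕ) : ℝ) < 1 := by
      rw [div_lt_one (by positivity)]
      exact_mod_cast i.2
    have h2 : 0 ≤ ((i : ℕ) : ℝ) / ((m + 2 : ℕ) : ℝ) := by positivity
    constructor
    · positivity
    · nlinarith
  have hElast : E (Fin.last (m + 1)) = 1 := by simp [hE]
  have hE0 : E 0 = 0 := by
    have : (0 : Fin (m + 2)) ≠ Fin.last (m + 1) := by
      intro h
      have := congrArg Fin.val h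
      simp at this
    simp only [hE, this, if_false]
    simp
  have hmono : StrictMono E := by
    intro i j hij
    have hi : i ≠ Fin.last (m + 1) := by
      rintro rfl
      exact absurd hij (not_lt.2 (Fin.le_last j))
    by_cases hj : j = Fin.last (m + 1)
    · rw [hj, hElast]
      linarith [(hElt i hi).2]
    · have e1 : E i = d * ((i : ℕ) / (m + 2 : ℕ)) := by simp only [hE, hi, if_false]
      have e2 : E j = d * ((j : ℕ) / (m + 2 : ℕ)) := by simp only [hE, hj, if_false]
      rw [e1, e2]
      have : ((i : ℕ) : ℝ) < ((j : ℕ) : ℝ) := by exact_mod_cast hij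
      have h3 : ((i : ℕ) : ℝ) / ((m + 2 : ℕ) : ℝ) < ((j : ℕ) : ℝ) / ((m + 2 : ℕ) : ℝ) :=
        div_lt_div_of_pos_right this (by positivity)
      exact mul_lt_mul_of_pos_left h3 hd0
  refine ⟨E, p, q, hmono, ?_⟩
  set L := lin E p q with hL
  let A : ℕ → Fin (m + 2) → (Fin 3 → ℝ) := fun k i => if (i : ℕ) ≤ k then L i else a i
  have hpq : ∀ k l : Fin (m + 2), k < l → 0 < chi p q (b k) (b l) := by
    intro k l hkl
    exact h 0 (Fin.last (m + 1)) k l (by
      rw [Fin.lt_def]
      simp) hkl
  have hconf : ∀ k, Conf (A k) b := by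
    intro k i j r s hij hrs
    show 0 < chi (A k i) (A k j) (b r) (b s)
    have hij' : (i : ℕ) < j := hij
    by_cases hj : (j : ℕ) ≤ k
    · have hi : (i : ℕ) ≤ k := by omega
      simp only [A, hi, hj, if_true]
      rw [hL]
      show 0 < chi ((1 - E i) • p + E i • q) ((1 - E j) • p + E j • q) (b r) (b s)
      rw [chi_lineA]
      exact mul_pos (sub_pos.2 (hmono hij)) (hpq r s hrs)
    · by_cases hi : (i : ℕ) ≤ k
      · simp only [A, hi, hj, if_true, if_false]
        show 0 < chi ((1 - E i) • p + E i • q) (a j) (b r) (b s)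
        rw [chi_aff1]
        have hil : i ≠ Fin.last (m + 1) := by
          rintro rfl
          exact absurd hij (not_lt.2 (Fin.le_last j))
        have h1 := hElt i hil
        apply hev (y := E i) _ j r s _ hrs
        · rw [Real.dist_eq, sub_zero, abs_of_nonneg h1.1]
          linarith [h1.2]
        · rw [Fin.lt_def]
          simp only [Fin.val_zero]
          omega
      · simp only [A, hi, hj, if_false]
        exact h i j r s hij hrs
  have hA0 : A 0 = a := by
    funext i
    by_cases hi : (i : ℕ) ≤ 0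
    · have : i = 0 := by
        apply Fin.ext
        simp only [Fin.val_zero]
        omega
      subst this
      simp only [A, hi, if_true]
      show (1 - E 0) • p + E 0 • q = a 0
      rw [hE0]
      simp [hp]
    · simp only [A, hi, if_false]
  have hAend : A (m + 1) = L := by
    funext i
    have : (i : ℕ) ≤ m + 1 := by omega
    simp only [A, this, if_true]
  have hstep : ∀ k, k ≤ m + 1 → JoinedIn (SS (m + 2)) (a, b) (A k, b) := by
    intro k
    induction k with
    | zero =>
      intro _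
      rw [hA0]
      exact JoinedIn.refl h
    | succ k ih =>
      intro hk
      refine (ih (by omega)).trans ?_
      refine joined_update (A k) (A (k + 1)) b ⟨k + 1, by omega⟩ (hconf k) (hconf (k + 1)) ?_
      intro i hi
      have hne : (i : ℕ) ≠ k + 1 := fun h => hi (Fin.ext h)
      by_cases h1 : (i : ℕ) ≤ k
      · have h2 : (i : ℕ) ≤ k + 1 := by omega
        simp only [A, h1, h2, if_true]
      · have h2 : ¬ (i : ℕ) ≤ k + 1 := by omega
        simp only [A, h1, h2, if_false]
  have := hstep (m + 1) le_rfl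
  rw [hAend] at this
  exact this

end Knot548
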